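import Pool.Agent.TH219.DL.Ulam

/-!
# Every convex body in space packs with density at least `0.412`

Every convex body `K` in Euclidean three-space has a packing by congruent copies, in fact by
translates of `K` and of its point reflection `-K`, of upper density at least `0.412`.
-/

namespace Pool.Agent.Results.MP_c7c9bf_co.UniversalDensity

open MeasureTheory

theorem result (K : Set (EuclideanSpace ℝ (Fin 3))) (hK : IsCompact K) (hc : Convex ℝ K)
    (hne : (interior K).Nonempty) :
    ∃ f : ℕ → (EuclideanSpace ℝ (Fin 3) ≃ᵢ EuclideanSpace ℝ (Fin 3)),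
      (∀ i, ∃ a, (∀ x, f i x = x + a) ∨ (∀ x, f i x = a - x)) ∧
      (∀ i j : ℕ, i ≠ j → Disjoint (interior ((f i) '' K)) (interior ((f j) '' K))) ∧
      ENNReal.ofReal 0.412 ≤ Filter.limsup (fun R : ℝ =>
        volume ((⋃ i : ℕ, (f i) '' K) ∩ Metric.ball (0 : EuclideanSpace ℝ (Fin 3)) R) /
          volume (Metric.ball (0 : EuclideanSpace ℝ (Fin 3)) R)) Filter.atTop :=
  Pool.Agent.TH219.DL.ulam_aux K hK hc hne

end Pool.Agent.Results.MP_c7c9bf_co.UniversalDensity
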